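import Pool.Agent.Q2N.Stmts

/-!
# RED: reduction to finitely generated orders
-/

set_option autoImplicit false

namespace Pool.Agent.Q2N.H61

open Pool.Agent.UW Pool.Agent.Q2N

/-- Reduction to finitely generated orders: `B` is generated by the numerators and denominators of
`y` and `f`. -/
theorem red : Pool.Agent.Q2N.RedStmt := by
  intro hOre hFrc hGend F K _ _ _ S f hf A hgk hfrac
  obtain ⟨a₁, ha₁, s₁, hs₁, hs₁0, h1⟩ := hfrac (y S.σ)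
  obtain ⟨a₂, ha₂, s₂, hs₂, hs₂0, h2⟩ := hfrac (ι S.σ f)
  have hBA : Algebra.adjoin F ({a₁, s₁, a₂, s₂} : Set (DD S.σ)) ≤ A := by
    apply Algebra.adjoin_le
    intro x hx
    simp only [Set.mem_insert_iff, Set.mem_singleton_iff] at hx
    rcases hx with rfl | rfl | rfl | rfl
    exacts [ha₁, hs₁, ha₂, hs₂]
  have hBgk : GKle F (Algebra.adjoin F ({a₁, s₁, a₂, s₂} : Set (DD S.σ))) 2 :=
    fun V hV hfd h1V ε hε => hgk V (hV.trans (fun x hx => hBA hx)) hfd h1V ε hε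
  have hBfg : (Algebra.adjoin F ({a₁, s₁, a₂, s₂} : Set (DD S.σ))).FG :=
    Subalgebra.fg_def.2 ⟨{a₁, s₁, a₂, s₂}, Set.toFinite _, rfl⟩
  obtain ⟨Q, hQ, hQinv⟩ := hFrc F (DD S.σ) (Algebra.adjoin F ({a₁, s₁, a₂, s₂} : Set (DD S.σ)))
    (fun a ha b hb ha0 hb0 => hOre F (DD S.σ) _ 2 hBgk a ha b hb ha0 hb0)
  have hmem : ∀ x ∈ ({a₁, s₁, a₂, s₂} : Set (DD S.σ)),
      x ∈ Algebra.adjoin F ({a₁, s₁, a₂, s₂} : Set (DD S.σ)) :=
    fun x hx => Algebra.subset_adjoin hx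
  have hy : y S.σ ∈ Q := (hQ _).2 ⟨a₁, hmem _ (by simp), s₁, hmem _ (by simp), hs₁0, h1⟩
  have hif : ι S.σ f ∈ Q := (hQ _).2 ⟨a₂, hmem _ (by simp), s₂, hmem _ (by simp), hs₂0, h2⟩
  have hQt : Q = ⊤ := hGend F K S f hf Q hQinv hy hif
  refine ⟨_, hBA, hBfg, hBgk, fun x => ?_⟩
  have hx : x ∈ Q := by
    rw [hQt]
    exact Algebra.mem_top
  exact (hQ x).1 hx

end Pool.Agent.Q2N.H61
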